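import Pool.Agent.Q282.UK.Bil
import Pool.Agent.Q193.LT.Mod

/-!
# Families of modules with localization sequences: bilinear systems and alterations

For a family of modules `A i X` with localization sequences such that `A i X` is a direct factor of a
module of `X × 𝔾_m` (no statement on affine bundles is needed), a Serre class contains all the modules
of all schemes of finite type if and only if it contains those of the systems of bilinear equations.
-/

set_option autoImplicit false

open CategoryTheory CategoryTheory.Limits AlgebraicGeometry Pool.Agent.Y116.UV Pool.Agent.Z125.UN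
  Pool.Agent.Q193.LT Pool.Agent.Q282.UK

universe w w'

namespace Pool.Agent.Q282.UZ

variable {R : Type} [CommRing R] {ι : Type} {E : Type w'} [CommRing E]

/-- Families of modules `A j X` over the ring `E` with: invariance under isomorphisms; long exact
sequences `⋯ → A_j Z → A_j X → A_j U → A_{δ j} Z → ⋯` for a closed subscheme `Z` of `X` and its
complement `U`; for an algebra `B` of finite type, the module `A_j` of `X = Spec B` is a direct factor of
the module `A_{σ j}` of `X × 𝔾_m = Spec B[t, t⁻¹]`. -/
structure IsLocal (sep : Prop) (A : ι → Sch R → ModuleCat.{w} E) (δ σ : ι ≃ ι) : Prop where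
  iso : ∀ {X Y : Sch R}, FT sep X → Nonempty (X ≅ Y) → ∀ j, Nonempty (A j X ≅ A j Y)
  les : ∀ {Z X U : Sch R} (i : Z ⟶ X) (j : U ⟶ X), FT sep X → IsTriple i j →
    ∃ m : LesMaps A δ Z X U, m.IsExact
  torus : ∀ (B : Type) [CommRing B] [Algebra R B] [Algebra.FiniteType R B] (q : ι),
    ∃ (s : A q (aff R B) ⟶ A (σ q) (aff R (LaurentPolynomial B)))
      (r : A (σ q) (aff R (LaurentPolynomial B)) ⟶ A q (aff R B)), s ≫ r = 𝟙 _

variable {A : ι → Sch R → ModuleCat.{w} E} {δ σ : ι ≃ ι} {S : ModuleCat.{w} E → Prop}
  {sep : Prop}

/-- The schemes all of whose modules are in the Serre class `S`. -/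
theorem clo_class (hA : IsLocal sep A δ σ) (hS : IsSerre S) : Clo sep (InClass A S) where
  iso hX e h j := by
    obtain ⟨e'⟩ := hA.iso hX e j
    exact hS.iso e' (h j)
  total i j hX ht hZ hU := by
    obtain ⟨m, h⟩ := hA.les i j hX ht
    exact LesMaps.mid hS h hZ hU
  opened i j hX ht hZ hX' := by
    obtain ⟨m, h⟩ := hA.les i j hX ht
    exact LesMaps.right hS h hZ hX'
  torus B _ _ _ h q := by
    obtain ⟨s, r, hsr⟩ := hA.torus B q
    have hm : Mono s := mono_of_mono_fac hsr
    exact hS.of_mono s (h (σ q))

/-- `P` holds for all closed subschemes of affine spaces given by a system of bilinear equations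
`∑_{(i, j) ∈ E_l} x_i y_j = 0`, `l = 1, …, c`, with coefficients `0` and `1`. -/
def ForBinary (P : Sch R → Prop) : Prop :=
  ∀ (a b c : ℕ) (T : Fin a → Fin b → Fin c → R), (∀ i j l, T i j l = 0 ∨ T i j l = 1) → P (bilS T)

/-- The reduction to systems of bilinear equations with coefficients `0` and `1`. -/
theorem binary_iff {P : Sch R → Prop} (hR : Presents ({0, 1} : Set R)) (hP : Clo sep P) :
    (∀ X : Sch R, FT sep X → P X) ↔ ForBinary P := by
  constructor
  · intro h a b c T _
    exact h _ (ft_aff sep)
  · intro h X hX
    refine clo_universal hP (by simp) (by simp) (S := {0, 1}) ?_ hR X hX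
    intro a b c T hT
    exact h a b c T fun i j l => by simpa using hT i j l

/-- `ℤ` itself: every algebra of finite type has a presentation with coefficients `0` and `1`. -/
theorem presents_int : Presents ({0, 1} : Set ℤ) := presents_zero_one fun x => ⟨x, rfl⟩

/-! ### Alterations -/

/-- The property `P` is closed under the steps of the dévissage by alterations: isomorphisms, closed-open
decompositions, and the passage from `V` to `U` for finite flat surjective morphisms `V → U` of integral
schemes. -/
structure AltClosed (P : Sch ℤ → Prop) : Prop where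
  iso : ∀ {X Y : Sch ℤ}, FT True X → Nonempty (X ≅ Y) → P X → P Y
  total : ∀ {Z X U : Sch ℤ} (i : Z ⟶ X) (j : U ⟶ X), FT True X → IsTriple i j → P Z → P U → P X
  opened : ∀ {Z X U : Sch ℤ} (i : Z ⟶ X) (j : U ⟶ X), FT True X → IsTriple i j → P Z → P X → P U
  finite : ∀ {V U : Sch ℤ} (f : V ⟶ U), FT True U → IsFinite f.left → Flat f.left →
    Surjective f.left → IsIntegral V.left → IsIntegral U.left → P V → P U

/-- **De Jong's theorem on alterations of arithmetic schemes**, in the form of a principle of dévissage:
a property which is closed under the steps above and true for all proper regular arithmetic schemes is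
true for all arithmetic schemes (`Reg` is the property of being regular). -/
def Alterations (Reg : Sch ℤ → Prop) : Prop :=
  ∀ P : Sch ℤ → Prop, AltClosed P → (∀ X : Sch ℤ, FT True X → IsProper X.hom → Reg X → P X) →
    ∀ X : Sch ℤ, FT True X → P X

/-- Transfer for finite flat surjective morphisms of integral schemes: maps `A_j U → A_j V → A_j U` whose
composition is multiplication by an integer `d ≥ 1` (the degree). -/
def HasTransfer (A : ι → Sch ℤ → ModuleCat.{w} ℤ) : Prop :=
  ∀ {V U : Sch ℤ} (f : V ⟶ U), FT True U → IsFinite f.left → Flat f.left →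
    Surjective f.left → IsIntegral V.left → IsIntegral U.left → ∀ j, ∃ (s : A j U ⟶ A j V)
      (r : A j V ⟶ A j U) (d : ℕ), 0 < d ∧ ∀ x, r.hom (s.hom x) = (d : ℤ) • x

/-- Finiteness of torsion: the elements killed by an integer `d ≥ 1` form a finitely generated group. -/
def TorsionFinite (A : ι → Sch ℤ → ModuleCat.{w} ℤ) : Prop :=
  ∀ X : Sch ℤ, FT True X → ∀ (j : ι) (d : ℕ), 0 < d →
    (LinearMap.ker (LinearMap.lsmul ℤ (A j X) (d : ℤ))).FG

/-- Finite generation descends along finite flat surjective morphisms. -/
lemma finite_of_transfer [IsNoetherianRing E] {M N : ModuleCat.{w} E} (s : M ⟶ N) (r : N ⟶ M) (d : E)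
    (h : ∀ x, r.hom (s.hom x) = d • x)
    (ht : (LinearMap.ker (LinearMap.lsmul E M d)).FG)
    (hN : Module.Finite E N) : Module.Finite E M := by
  have hN' : IsNoetherian E N := isNoetherian_of_isNoetherianRing_of_finite E N
  have ht0 : Module.Finite E (LinearMap.ker (LinearMap.lsmul E M d)) := Module.Finite.iff_fg.mpr ht
  have ht' : IsNoetherian E (LinearMap.ker (LinearMap.lsmul E M d)) :=
    isNoetherian_of_isNoetherianRing_of_finite E _
  have h1 : LinearMap.ker s.hom ≤ LinearMap.ker (LinearMap.lsmul E M d) := by
    intro x hx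
    rw [LinearMap.mem_ker] at hx ⊢
    have h2 := h x
    rw [hx, map_zero] at h2
    exact h2.symm
  have h2 : IsNoetherian E (LinearMap.ker s.hom) := isNoetherian_of_le h1
  have h3 : IsNoetherian E (LinearMap.range s.hom) := inferInstance
  have h4 : IsNoetherian E M := isNoetherian_of_range_eq_ker (LinearMap.ker s.hom).subtype
    s.hom.rangeRestrict (by rw [Submodule.range_subtype, LinearMap.ker_rangeRestrict])
  exact inferInstance

theorem alt_finite {A : ι → Sch ℤ → ModuleCat.{w} ℤ} {δ σ : ι ≃ ι} (hA : IsLocal True A δ σ)
    (hr : HasTransfer A) (ht : TorsionFinite A) : AltClosed fun X => ∀ j, Module.Finite ℤ (A j X) where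
  iso := (clo_class hA serre_finite).iso
  total := (clo_class hA serre_finite).total
  opened := (clo_class hA serre_finite).opened
  finite {V U} f hU h1 h2 h3 h4 h5 h j := by
    obtain ⟨s, r, d, hd, hsr⟩ := hr f hU h1 h2 h3 h4 h5 j
    refine finite_of_transfer s r (d : ℤ) (fun x => (hsr x).trans ?_) (ht U hU j d hd) (h j)
    exact (int_smul_eq_zsmul (A j U).isModule _ _).symm

end Pool.Agent.Q282.UZ
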