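import Pool.Agent.Q282.UZ.Sys
import Pool.Agent.Q193.Zeta.Prod

/-!
# Orders of zeta functions at the integers and Euler characteristics of localization sequences
-/

set_option autoImplicit false

open CategoryTheory CategoryTheory.Limits AlgebraicGeometry Pool.Agent.Y116.UV Pool.Agent.Q193.LT
  Pool.Agent.Q193.Zeta Pool.Agent.Q282.UK Filter Topology

universe w

namespace Pool.Agent.Q282.UZ

section order

/-- Two meromorphic functions which agree on a half-plane have the same orders. -/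
lemma order_unique {F G : ℂ → ℂ} (hF : MeromorphicOn F Set.univ) (hG : MeromorphicOn G Set.univ)
    {σ : ℝ} (h : ∀ s : ℂ, σ < s.re → F s = G s) (z : ℂ) :
    meromorphicOrderAt F z = meromorphicOrderAt G z := by
  have h1 : meromorphicOrderAt (F - G) z = ⊤ := by
    by_contra hne
    refine (hF.sub hG).meromorphicOrderAt_ne_top_of_isPreconnected (x := z)
      (y := ((σ + 1 : ℝ) : ℂ)) isPreconnected_univ trivial trivial hne ?_
    rw [meromorphicOrderAt_eq_top_iff]
    refine Filter.Eventually.filter_mono nhdsWithin_le_nhds ?_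
    have hev : ∀ᶠ s : ℂ in 𝓝 ((σ + 1 : ℝ) : ℂ), σ < s.re :=
      (Complex.continuous_re.tendsto _).eventually (lt_mem_nhds (by
        rw [Complex.ofReal_re]
        linarith))
    filter_upwards [hev] with s hs
    rw [Pi.sub_apply, h s hs, sub_self]
  rw [meromorphicOrderAt_eq_top_iff] at h1
  exact meromorphicOrderAt_congr (h1.mono fun w hw => sub_eq_zero.mp hw)

lemma mero_sub {G : ℂ → ℂ} (hG : MeromorphicOn G Set.univ) (a : ℂ) :
    MeromorphicOn (fun s => G (s + a)) Set.univ := fun z _ => mero_shift a z (hG _ trivial)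

/-- The orders of the zeta functions of `X × 𝔾_m` and `X`. -/
lemma order_torus {F G : ℂ → ℂ} (hF : MeromorphicOn F Set.univ) (hG : MeromorphicOn G Set.univ)
    {σ : ℝ} (h : ∀ s : ℂ, σ < s.re → G (s - 1) = F s * G s) (z : ℂ) :
    meromorphicOrderAt G (z - 1) = meromorphicOrderAt F z + meromorphicOrderAt G z := by
  rw [← meromorphicOrderAt_mul (hF z trivial) (hG z trivial), sub_eq_add_neg,
    ← meromorphicOrderAt_comp_add_const_eq_meromorphicOrderAt]
  exact order_unique (mero_sub hG (-1)) (hF.mul hG)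
    (fun s hs => by rw [← sub_eq_add_neg]; exact h s hs) z

/-- The zeta function has no zeros and poles in some half-plane. -/
lemma order_large {X : Sch ℤ} (hX : FT False X) {F : ℂ → ℂ} {σ : ℝ}
    (h : ∀ s : ℂ, σ < s.re → F s = zeta X.left s) :
    ∃ τ : ℝ, ∀ z : ℂ, τ < z.re → meromorphicOrderAt F z = 0 := by
  obtain ⟨C, k, b⟩ := ft_bounded hX
  refine ⟨max σ ((k : ℝ) + 1), fun z hz => ?_⟩
  have hz1 : (k : ℝ) + 1 < z.re := lt_of_le_of_lt (le_max_right _ _) hz
  have h1 : AnalyticAt ℂ (fun s => Complex.exp (lz X.left s)) z := (lz_analytic b hz1).cexp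
  have h2 : F =ᶠ[𝓝[≠] z] fun s => Complex.exp (lz X.left s) := by
    refine Filter.Eventually.filter_mono nhdsWithin_le_nhds ?_
    have hev : ∀ᶠ s : ℂ in 𝓝 z, max σ ((k : ℝ) + 1) < s.re :=
      (Complex.continuous_re.tendsto z).eventually (lt_mem_nhds hz)
    filter_upwards [hev] with s hs
    rw [h s (lt_of_le_of_lt (le_max_left _ _) hs),
      ft_zeta hX b (lt_of_le_of_lt (le_max_right _ _) hs)]
  have h3 : analyticOrderAt (fun s => Complex.exp (lz X.left s)) z = 0 :=
    analyticOrderAt_eq_zero.mpr (Or.inr (Complex.exp_ne_zero _))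
  rw [meromorphicOrderAt_congr h2, h1.meromorphicOrderAt_eq, h3]
  rfl

end order

section rank

variable {A : ℤ → Sch ℤ → ModuleCat.{w} ℚ}

/-- All spaces `A k X` are finite-dimensional, and all but finitely many of them are zero. -/
def FinRank (A : ℤ → Sch ℤ → ModuleCat.{w} ℚ) (X : Sch ℤ) : Prop :=
  (∀ k, Module.Finite ℚ (A k X)) ∧ {k | ¬ Subsingleton (A k X)}.Finite

/-- The alternating sum `∑ (-1)^k dim A k X`. -/
noncomputable def rk (A : ℤ → Sch ℤ → ModuleCat.{w} ℚ) (X : Sch ℤ) : ℤ :=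
  ∑ᶠ k : ℤ, (k.negOnePow : ℤ) * Module.finrank ℚ (A k X)

lemma fin_supp {X : Sch ℤ} (h : FinRank A X) :
    (Function.support fun k : ℤ => (k.negOnePow : ℤ) * (Module.finrank ℚ (A k X) : ℤ)).Finite := by
  refine h.2.subset fun k hk hs => hk ?_
  have : Module.finrank ℚ (A k X) = 0 := Module.finrank_zero_of_subsingleton
  simp [this]

lemma sub_mid {P Q S : ModuleCat.{w} ℚ} {f : P ⟶ Q} {g : Q ⟶ S} (h : ExactAt f g)
    (hP : Subsingleton P) (hS : Subsingleton S) : Subsingleton Q := by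
  refine ⟨fun x y => ?_⟩
  have h0 : ∀ x : Q, x = 0 := fun x => by
    obtain ⟨z, hz⟩ := (h x).mp (Subsingleton.elim _ _)
    rw [← hz, Subsingleton.elim z 0, map_zero]
  rw [h0 x, h0 y]

variable {Z X U : Sch ℤ} {m : LesMaps A (Equiv.subRight 1) Z X U}

lemma fin_total (h : m.IsExact) (hZ : FinRank A Z) (hU : FinRank A U) : FinRank A X := by
  refine ⟨fun k => serre_exact serre_finite (h.fg k) (hZ.1 k) (hU.1 k),
    (hZ.2.union hU.2).subset fun k hk => ?_⟩
  by_contra h2
  rw [Set.mem_union, not_or] at h2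
  exact hk (sub_mid (h.fg k) (not_not.mp h2.1) (not_not.mp h2.2))

lemma fin_opened (h : m.IsExact) (hZ : FinRank A Z) (hX : FinRank A X) : FinRank A U := by
  refine ⟨fun k => serre_exact serre_finite (h.gh k) (hX.1 k) (hZ.1 _),
    (hX.2.union (hZ.2.preimage (Equiv.injective (Equiv.subRight (1 : ℤ))).injOn)).subset
      fun k hk => ?_⟩
  by_contra h2
  rw [Set.mem_union, not_or] at h2
  exact hk (sub_mid (h.gh k) (not_not.mp h2.1) (not_not.mp h2.2))

lemma dim_mid {P Q S : ModuleCat.{w} ℚ} {f : P ⟶ Q} {g : Q ⟶ S} (h : ExactAt f g)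
    (hQ : Module.Finite ℚ Q) : Module.finrank ℚ Q =
      Module.finrank ℚ (LinearMap.range g.hom) + Module.finrank ℚ (LinearMap.range f.hom) := by
  have h1 := LinearMap.finrank_range_add_finrank_ker g.hom
  have h2 : LinearMap.ker g.hom = LinearMap.range f.hom := by
    ext x
    exact h x
  rw [h2] at h1
  exact h1.symm

/-- The Euler characteristic is additive in long exact sequences. -/
theorem rk_les (h : m.IsExact) (hZ : FinRank A Z) (hX : FinRank A X) (hU : FinRank A U) :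
    rk A X = rk A Z + rk A U := by
  let η : ℤ → ℤ := fun k => Module.finrank ℚ (LinearMap.range (m.h k).hom)
  let θ : ℤ → ℤ := fun k => (k.negOnePow : ℤ) * η k
  have hθ : (Function.support θ).Finite := by
    refine hU.2.subset fun k hk hs => hk ?_
    have h1 : LinearMap.range (m.h k).hom = ⊥ := by
      rw [LinearMap.range_eq_bot]
      ext x
      rw [Subsingleton.elim x 0, map_zero, map_zero]
    change (k.negOnePow : ℤ) * (Module.finrank ℚ (LinearMap.range (m.h k).hom) : ℤ) = 0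
    rw [h1, finrank_bot]
    simp
  have hθ1 : (Function.support fun k => θ (k + 1)).Finite :=
    hθ.preimage (Equiv.injective (Equiv.addRight (1 : ℤ))).injOn
  have h0 : ∀ k : ℤ, (k.negOnePow : ℤ) * (Module.finrank ℚ (A k X) : ℤ) =
      ((k.negOnePow : ℤ) * (Module.finrank ℚ (A k Z) : ℤ) +
        (k.negOnePow : ℤ) * (Module.finrank ℚ (A k U) : ℤ)) + (θ (k + 1) - θ k) := by
    intro k
    have e1 := dim_mid (h.fg k) (hX.1 k)
    have e2 := dim_mid (h.gh k) (hU.1 k)
    have e3 : Module.finrank ℚ (A k Z) =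
        Module.finrank ℚ (LinearMap.range (m.f k).hom) +
          Module.finrank ℚ (LinearMap.range (m.h (k + 1)).hom) := by
      have h3 : ∀ l : ℤ, l = k → Module.finrank ℚ (A l Z) =
          Module.finrank ℚ (LinearMap.range (m.f l).hom) +
            Module.finrank ℚ (LinearMap.range (m.h (l + 1)).hom) := by
        intro l _
        have h4 := h.hf (l + 1)
        have h5 : (Equiv.subRight (1 : ℤ)) (l + 1) = l := by simp
        have h6 : ∀ (l' : ℤ) (q : A (l + 1) U ⟶ A l' Z), l' = l →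
            ExactAt q (m.f l') → Module.finrank ℚ (A l Z) =
          Module.finrank ℚ (LinearMap.range (m.f l).hom) +
            Module.finrank ℚ (LinearMap.range q.hom) := by
          intro l' q hl hq
          subst hl
          exact dim_mid hq (hZ.1 _)
        exact h6 _ (m.h (l + 1)) h5 h4
      exact h3 k rfl
    have e4 : ((k + 1).negOnePow : ℤ) = -(k.negOnePow : ℤ) := by
      rw [Int.negOnePow_succ]
      simp
    simp only [θ, η]
    rw [e4, e1, e2, e3]
    push_cast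
    ring
  have hz : ∑ᶠ k, (θ (k + 1) - θ k) = 0 := by
    have h1 : ∑ᶠ k, θ (k + 1) = ∑ᶠ k, θ k := finsum_comp_equiv (Equiv.addRight (1 : ℤ)) (f := θ)
    rw [finsum_sub_distrib hθ1 hθ, h1, sub_self]
  rw [rk, rk, rk, finsum_congr h0, finsum_add_distrib, hz, add_zero,
    finsum_add_distrib (fin_supp hZ) (fin_supp hU)]
  · exact ((fin_supp hZ).union (fin_supp hU)).subset (Function.support_add _ _)
  · exact (hθ1.union hθ).subset (Function.support_sub _ _)

end rank

/-- Families `A m k X` of rational vector spaces (`m, k ∈ ℤ`, `X` of finite type over `ℤ`; for example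
`CH_m(X, k) ⊗ ℚ`) with: invariance under isomorphisms; for each `m` a localization sequence
`⋯ → A m k Z → A m k X → A m k U → A m (k - 1) Z → ⋯` for a closed subscheme `Z` of `X` and its
complement `U`; `A m k (X × 𝔾_m) = A (m - 1) k X ⊕ A m (k - 1) X` for affine `X`; `A m k X = 0` for all
`m > N`, `N` depending on `X` (the dimension of `X`). -/
structure IsChow (A : ℤ → ℤ → Sch ℤ → ModuleCat.{w} ℚ) : Prop where
  iso : ∀ {X Y : Sch ℤ}, FT False X → Nonempty (X ≅ Y) → ∀ m k, Nonempty (A m k X ≅ A m k Y)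
  les : ∀ {Z X U : Sch ℤ} (i : Z ⟶ X) (j : U ⟶ X), FT False X → IsTriple i j →
    ∀ m, ∃ l : LesMaps (A m) (Equiv.subRight 1) Z X U, l.IsExact
  torus : ∀ (B : Type) [CommRing B] [Algebra ℤ B] [Algebra.FiniteType ℤ B] (m k : ℤ),
    Nonempty (A m k (aff ℤ (LaurentPolynomial B)) ≃ₗ[ℚ] (A (m - 1) k (aff ℤ B) × A m (k - 1) (aff ℤ B)))
  large : ∀ X : Sch ℤ, FT False X → ∃ N : ℤ, ∀ m, N < m → ∀ k, Subsingleton (A m k X)

/-- **The order formula for `X`**: the Euler product over the closed points of `X` extends to a function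
which is meromorphic on `ℂ`; for all integers `m` the spaces `A m k X`, `k ∈ ℤ`, are finite-dimensional
and almost all zero, and the order of the function at `s = m` is `-∑ (-1)^k dim A m k X`. -/
def Formula (A : ℤ → ℤ → Sch ℤ → ModuleCat.{w} ℚ) (X : Sch ℤ) : Prop :=
  ∃ F : ℂ → ℂ, MeromorphicOn F Set.univ ∧ (∃ σ : ℝ, ∀ s : ℂ, σ < s.re → F s = zeta X.left s) ∧
    ∀ m : ℤ, FinRank (A m) X ∧ meromorphicOrderAt F (m : ℂ) = ((-rk (A m) X : ℤ) : WithTop ℤ)

lemma fin_iso {A : ℤ → Sch ℤ → ModuleCat.{w} ℚ} {X Y : Sch ℤ} (e : ∀ k, Nonempty (A k X ≅ A k Y))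
    (h : FinRank A X) : FinRank A Y ∧ rk A Y = rk A X := by
  refine ⟨⟨fun k => ?_, h.2.subset fun k hk hs => hk ?_⟩, ?_⟩
  · obtain ⟨e⟩ := e k
    have := h.1 k
    exact Module.Finite.equiv e.toLinearEquiv
  · obtain ⟨e⟩ := e k
    exact e.toLinearEquiv.symm.toEquiv.subsingleton
  · rw [rk, rk]
    refine finsum_congr fun k => ?_
    obtain ⟨e⟩ := e k
    rw [e.toLinearEquiv.finrank_eq]

section torus

variable {A : ℤ → ℤ → Sch ℤ → ModuleCat.{w} ℚ} (hA : IsChow A) (B : Type) [CommRing B] [Algebra ℤ B]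
  [Algebra.FiniteType ℤ B]

include hA

lemma fin_torus (m : ℤ) (h : FinRank (A m) (aff ℤ (LaurentPolynomial B))) :
    FinRank (A m) (aff ℤ B) ∧ FinRank (A (m - 1)) (aff ℤ B) := by
  have h1 : ∀ k, Module.Finite ℚ (A (m - 1) k (aff ℤ B)) ∧
      Module.Finite ℚ (A m (k - 1) (aff ℤ B)) := by
    intro k
    obtain ⟨e⟩ := hA.torus B m k
    have h2 := h.1 k
    have h3 : Module.Finite ℚ (A (m - 1) k (aff ℤ B) × A m (k - 1) (aff ℤ B)) :=
      Module.Finite.equiv e
    exact ⟨Module.Finite.of_surjective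
      (LinearMap.fst ℚ (A (m - 1) k (aff ℤ B)) (A m (k - 1) (aff ℤ B))) LinearMap.fst_surjective,
      Module.Finite.of_surjective
      (LinearMap.snd ℚ (A (m - 1) k (aff ℤ B)) (A m (k - 1) (aff ℤ B))) LinearMap.snd_surjective⟩
  have h2 : ∀ k, Subsingleton (A m k (aff ℤ (LaurentPolynomial B))) →
      Subsingleton (A (m - 1) k (aff ℤ B)) ∧ Subsingleton (A m (k - 1) (aff ℤ B)) := by
    intro k hk
    obtain ⟨e⟩ := hA.torus B m k
    have h3 : Subsingleton (A (m - 1) k (aff ℤ B) × A m (k - 1) (aff ℤ B)) :=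
      e.symm.toEquiv.subsingleton
    exact ⟨⟨fun x y => congrArg Prod.fst (Subsingleton.elim (x, (0 : A m (k - 1) (aff ℤ B))) (y, 0))⟩,
      ⟨fun x y => congrArg Prod.snd (Subsingleton.elim ((0 : A (m - 1) k (aff ℤ B)), x) (0, y))⟩⟩
  refine ⟨⟨fun k => ?_, ?_⟩, ⟨fun k => (h1 k).1, ?_⟩⟩
  · have := (h1 (k + 1)).2
    rwa [add_sub_cancel_right] at this
  · refine (h.2.preimage (Equiv.injective (Equiv.addRight (1 : ℤ))).injOn).subset fun k hk hs => hk ?_
    have := (h2 (k + 1) hs).2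
    rwa [add_sub_cancel_right] at this
  · exact h.2.subset fun k hk hs => hk (h2 k hs).1

lemma rk_torus (m : ℤ) (h : FinRank (A m) (aff ℤ (LaurentPolynomial B))) :
    rk (A m) (aff ℤ (LaurentPolynomial B)) = rk (A (m - 1)) (aff ℤ B) - rk (A m) (aff ℤ B) := by
  obtain ⟨h1, h2⟩ := fin_torus hA B m h
  have hs : (Function.support fun k : ℤ => ((k - 1).negOnePow : ℤ) *
      (Module.finrank ℚ (A m (k - 1) (aff ℤ B)) : ℤ)).Finite :=
    (fin_supp h1).preimage (Equiv.injective (Equiv.subRight (1 : ℤ))).injOn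
  have h0 : ∀ k : ℤ, (k.negOnePow : ℤ) * (Module.finrank ℚ (A m k (aff ℤ (LaurentPolynomial B))) : ℤ) =
      (k.negOnePow : ℤ) * (Module.finrank ℚ (A (m - 1) k (aff ℤ B)) : ℤ) -
        (((k - 1).negOnePow : ℤ) * (Module.finrank ℚ (A m (k - 1) (aff ℤ B)) : ℤ)) := by
    intro k
    obtain ⟨e⟩ := hA.torus B m k
    have f1 := h1.1 (k - 1)
    have f2 := h2.1 k
    have e4 : ((k - 1).negOnePow : ℤ) = -(k.negOnePow : ℤ) := by
      have := Int.negOnePow_succ (k - 1)
      rw [sub_add_cancel] at this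
      rw [this]
      simp
    rw [e.finrank_eq, Module.finrank_prod, e4]
    push_cast
    ring
  have h3 : ∑ᶠ k : ℤ, ((k - 1).negOnePow : ℤ) * (Module.finrank ℚ (A m (k - 1) (aff ℤ B)) : ℤ) =
      rk (A m) (aff ℤ B) := finsum_comp_equiv (Equiv.subRight (1 : ℤ))
        (f := fun k : ℤ => (k.negOnePow : ℤ) * (Module.finrank ℚ (A m k (aff ℤ B)) : ℤ))
  rw [rk, finsum_congr h0, finsum_sub_distrib (fin_supp h2) hs, h3]
  rfl

lemma formula_torus (h : Formula A (aff ℤ (LaurentPolynomial B))) : Formula A (aff ℤ B) := by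
  obtain ⟨F, hF, ⟨σ, hσ⟩, hm⟩ := h
  obtain ⟨τ, h1, h2⟩ := zeta_torus B
  have hB : FT False (aff ℤ B) := ft_aff False
  obtain ⟨G, hG, σ', hσ'⟩ := HasCont.of_torus (W := zeta (aff ℤ (LaurentPolynomial B)).left)
    ⟨F, hF, σ, hσ⟩ h1 h2
  refine ⟨G, hG, ⟨σ', hσ'⟩, ?_⟩
  have hfin : ∀ m, FinRank (A m) (aff ℤ B) := fun m => (fin_torus hA B m (hm m).1).1
  have hord : ∀ z : ℂ, meromorphicOrderAt G (z - 1) = meromorphicOrderAt F z + meromorphicOrderAt G z :=
    order_torus hF hG (σ := max (max σ τ) (σ' + 1)) (fun s hs => by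
      have a1 : σ < s.re := lt_of_le_of_lt ((le_max_left _ _).trans (le_max_left _ _)) hs
      have a2 : τ < s.re := lt_of_le_of_lt ((le_max_right _ _).trans (le_max_left _ _)) hs
      have a3 : σ' + 1 < s.re := lt_of_le_of_lt (le_max_right _ _) hs
      rw [hσ' (s - 1) (by rw [Complex.sub_re, Complex.one_re]; linarith), hσ s a1,
        hσ' s (by linarith)]
      exact h2 s a2)
  obtain ⟨N, hN⟩ := hA.large _ hB
  obtain ⟨ρ, hρ⟩ := order_large hB hσ'
  let M : ℤ := max (N + 1) (⌈ρ⌉ + 1)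
  have hlarge : ∀ m : ℤ, M ≤ m → meromorphicOrderAt G (m : ℂ) = ((-rk (A m) (aff ℤ B) : ℤ) : WithTop ℤ) := by
    intro m hmM
    have b1 : N < m := by
      have := (le_max_left (N + 1) (⌈ρ⌉ + 1)).trans hmM
      omega
    have b2 : ρ < ((m : ℂ)).re := by
      have b3 := (le_max_right (N + 1) (⌈ρ⌉ + 1)).trans hmM
      rw [Complex.intCast_re]
      have b4 : ρ ≤ ⌈ρ⌉ := Int.le_ceil ρ
      have b5 : ((⌈ρ⌉ + 1 : ℤ) : ℝ) ≤ m := by exact_mod_cast b3
      push_cast at b5
      linarith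
    rw [hρ _ b2]
    have b6 : rk (A m) (aff ℤ B) = 0 := by
      rw [rk]
      refine (finsum_congr fun k => ?_).trans finsum_zero
      have := hN m b1 k
      rw [Module.finrank_zero_of_subsingleton]
      simp
    rw [b6]
    rfl
  have hstep : ∀ m : ℤ, meromorphicOrderAt G (m : ℂ) = ((-rk (A m) (aff ℤ B) : ℤ) : WithTop ℤ) →
      meromorphicOrderAt G ((m - 1 : ℤ) : ℂ) = ((-rk (A (m - 1)) (aff ℤ B) : ℤ) : WithTop ℤ) := by
    intro m ih
    have c1 := hord (m : ℂ)
    rw [ih, (hm m).2, rk_torus hA B m (hm m).1] at c1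
    push_cast
    rw [c1, ← WithTop.coe_add]
    congr 1
    ring
  have hall : ∀ n : ℕ, meromorphicOrderAt G ((M - n : ℤ) : ℂ) =
      ((-rk (A (M - n)) (aff ℤ B) : ℤ) : WithTop ℤ) := by
    intro n
    induction n with
    | zero =>
      have := hlarge M le_rfl
      simpa using this
    | succ n ih =>
      have := hstep _ ih
      have e : M - (n : ℤ) - 1 = M - ((n + 1 : ℕ) : ℤ) := by
        push_cast
        ring
      rwa [e] at this
  intro m
  refine ⟨hfin m, ?_⟩
  rcases le_total M m with h3 | h3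
  · exact hlarge m h3
  · have := hall (M - m).toNat
    have e : M - ((M - m).toNat : ℤ) = m := by
      rw [Int.toNat_of_nonneg (by omega)]
      ring
    rwa [e] at this

end torus

/-- The closure properties of the schemes for which the order formula holds. -/
theorem clo_formula {A : ℤ → ℤ → Sch ℤ → ModuleCat.{w} ℚ} (hA : IsChow A) :
    Clo False (Formula A) where
  iso {X Y} hX e h := by
    obtain ⟨F, hF, ⟨σ, hσ⟩, hm⟩ := h
    obtain ⟨τ, hτ⟩ := zeta_iso hX e
    refine ⟨F, hF, ⟨max σ τ, fun s hs => ?_⟩, fun m => ?_⟩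
    · rw [hσ s (lt_of_le_of_lt (le_max_left _ _) hs), hτ s (lt_of_le_of_lt (le_max_right _ _) hs)]
    · obtain ⟨h1, h2⟩ := fin_iso (hA.iso hX e m) (hm m).1
      exact ⟨h1, by rw [h2]; exact (hm m).2⟩
  total {Z X U} i j hX ht hZ hU := by
    obtain ⟨F, hF, ⟨σ, hσ⟩, hm⟩ := hZ
    obtain ⟨G, hG, ⟨σ', hσ'⟩, hm'⟩ := hU
    obtain ⟨τ, h⟩ := zeta_triple hX (ft_closed i hX ht.closed) (ft_open j hX ht.opened) ht
    refine ⟨F * G, hF.mul hG, ⟨max (max σ σ') τ, fun s hs => ?_⟩, fun m => ?_⟩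
    · have a1 : σ < s.re := lt_of_le_of_lt ((le_max_left _ _).trans (le_max_left _ _)) hs
      have a2 : σ' < s.re := lt_of_le_of_lt ((le_max_right _ _).trans (le_max_left _ _)) hs
      rw [Pi.mul_apply, hσ s a1, hσ' s a2, (h s (lt_of_le_of_lt (le_max_right _ _) hs)).1]
    · obtain ⟨l, hl⟩ := hA.les i j hX ht m
      have h1 := fin_total hl (hm m).1 (hm' m).1
      refine ⟨h1, ?_⟩
      rw [meromorphicOrderAt_mul (hF _ trivial) (hG _ trivial), (hm m).2, (hm' m).2,
        rk_les hl (hm m).1 h1 (hm' m).1, ← WithTop.coe_add]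
      congr 1
      ring
  opened {Z X U} i j hX ht hZ hX' := by
    obtain ⟨F, hF, ⟨σ, hσ⟩, hm⟩ := hZ
    obtain ⟨G, hG, ⟨σ', hσ'⟩, hm'⟩ := hX'
    obtain ⟨τ, h⟩ := zeta_triple hX (ft_closed i hX ht.closed) (ft_open j hX ht.opened) ht
    refine ⟨G * F⁻¹, hG.mul hF.inv, ⟨max (max σ σ') τ, fun s hs => ?_⟩, fun m => ?_⟩
    · have a1 : σ < s.re := lt_of_le_of_lt ((le_max_left _ _).trans (le_max_left _ _)) hs
      have a2 : σ' < s.re := lt_of_le_of_lt ((le_max_right _ _).trans (le_max_left _ _)) hs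
      obtain ⟨h1, h2, h3⟩ := h s (lt_of_le_of_lt (le_max_right _ _) hs)
      rw [Pi.mul_apply, Pi.inv_apply, hσ s a1, hσ' s a2, h1]
      field_simp
    · obtain ⟨l, hl⟩ := hA.les i j hX ht m
      have h1 := fin_opened hl (hm m).1 (hm' m).1
      refine ⟨h1, ?_⟩
      have h2 := rk_les hl (hm m).1 (hm' m).1 h1
      have h3 : meromorphicOrderAt F⁻¹ (m : ℂ) = ((rk (A m) Z : ℤ) : WithTop ℤ) := by
        rw [meromorphicOrderAt_inv, (hm m).2]
        change ((-(-rk (A m) Z) : ℤ) : WithTop ℤ) = _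
        rw [neg_neg]
      rw [meromorphicOrderAt_mul (hG _ trivial) (hF.inv _ trivial), (hm' m).2, h3,
        ← WithTop.coe_add]
      congr 1
      rw [h2]
      ring
  torus B _ _ _ h := formula_torus hA B h

end Pool.Agent.Q282.UZ
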