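import Pool.Agent.Q282.UZ.Sys

/-!
# Comparison maps: three-term bilinear systems and alterations
-/

set_option autoImplicit false

open CategoryTheory CategoryTheory.Limits AlgebraicGeometry Pool.Agent.Y116.UV Pool.Agent.Q193.LT
  Pool.Agent.Q282.UK

universe w w'

namespace Pool.Agent.Q282.UZ

variable {R : Type} [CommRing R] {ι : Type} {E : Type w'} [CommRing E]

/-- Two families of modules with a comparison map: invariance under isomorphisms; compatible long exact
sequences `⋯ → A_j Z → A_j X → A_j U → A_{δ j} Z → ⋯` (and the same for `B`) for a closed subscheme `Z`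
of `X` and its complement `U`; for an algebra `B` of finite type, the comparison map in degree `j` of
`X = Spec B` is a direct factor of the one in degree `σ j` of `X × 𝔾_m`. -/
structure IsLocalPair (D : PairData.{w} R ι E) (δ σ : ι ≃ ι) : Prop where
  iso : ∀ {X Y : Sch R}, FT True X → Nonempty (X ≅ Y) → ∀ j, SameAt D j X j Y
  les : ∀ {Z X U : Sch R} (i : Z ⟶ X) (j : U ⟶ X), FT True X → IsTriple i j → LesPair D δ Z X U
  torus : ∀ (B : Type) [CommRing B] [Algebra R B] [Algebra.FiniteType R B] (q : ι),
    FactorAt D q (aff R B) (σ q) (aff R (LaurentPolynomial B))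

theorem clo_pair {D : PairData.{w} R ι E} {δ σ : ι ≃ ι} (hD : IsLocalPair D δ σ) :
    Clo True (BijAll D) where
  iso hX e h j := (hD.iso hX e j).iff.mp (h j)
  total i j hX ht hZ hU := (hD.les i j hX ht).mid hZ hU
  opened i j hX ht hZ hX' := (hD.les i j hX ht).right hZ hX'
  torus B _ _ _ h q := (hD.torus B q).bij (h _)

/-- For finite flat surjective morphisms `V → U` of integral schemes the comparison maps of `U` are direct
factors of those of `V` (transfer, when the degrees are invertible). -/
def HasFactors (D : PairData.{w} ℤ ι E) : Prop :=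
  ∀ {V U : Sch ℤ} (f : V ⟶ U), FT True U → IsFinite f.left → Flat f.left →
    Surjective f.left → IsIntegral V.left → IsIntegral U.left → ∀ j, FactorAt D j U j V

theorem alt_pair {D : PairData.{w} ℤ ι E} {δ σ : ι ≃ ι} (hD : IsLocalPair D δ σ)
    (hr : HasFactors D) : AltClosed (BijAll D) where
  iso := (clo_pair hD).iso
  total := (clo_pair hD).total
  opened := (clo_pair hD).opened
  finite f hU h1 h2 h3 h4 h5 h j := (hr f hU h1 h2 h3 h4 h5 j).bij (h j)

end Pool.Agent.Q282.UZ
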